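import Mathlib
import Pool.Agent.Helper93.ML.Stmts2

/-!
# The quotient by a small cancellation family has the Dehn property
-/

namespace Pool.Agent.Helper50.ML

open Pool.Agent.Helper93.ML

theorem dehn {G : Type} [Group G] {M : Mark G} {ι : Type} (L : SC M ι) : Dehn L.MH.d L.τ := by
  have hκ := L.hκ
  have hθ := L.hθ
  have hτ := L.hτ
  intro n f hn hf h0n
  by_contra hc
  push Not at hc
  have hc' : ∀ i j, i ≤ j → j ≤ n → j ≤ i + L.τ → j ≤ L.MH.d (f i) (f j) + i := by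
    intro i j hij hjn hjt
    rcases Nat.lt_or_ge i j with h | h
    · exact hc i j h hjn hjt
    · omega
  have hnτ : L.τ < n := by
    by_contra h
    have h1 := hc 0 n hn le_rfl (by omega)
    rw [h0n, L.MH.isGeo.self] at h1
    omega
  obtain ⟨P, hP⟩ := QuotientGroup.mk_surjective (f 0)
  obtain ⟨F, hF0, hFf, hFp⟩ := M.quo_lift L.N f n hf P hP
  -- the lift is locally geodesic
  have hMH : ∀ i j, i ≤ j → j ≤ n → j ≤ i + L.τ → j ≤ M.d (F i) (F j) + i := by
    intro i j hij hjn hjt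
    have h1 := hc' i j hij hjn hjt
    have h2 : L.MH.d (f i) (f j) ≤ M.d (F i) (F j) := by
      rw [← hFf i (by omega), ← hFf j hjn]
      exact M.quo_d_le L.N _ _
    omega
  have hLQ : LQ M.d F n (L.τ / 2) 0 := by
    intro i k hik hkn hkA
    have := hMH i k hik hkn (by omega)
    omega
  have hstr := local_str M.isGeo L.hyp hFp hLQ (by omega)
  have hgr := fun i j hij hjn => local_growth M.isGeo L.hyp hFp hLQ (by omega) (j - i) i j rfl hij hjn
  -- endpoints
  obtain ⟨m, hm, hFn⟩ : ∃ m ∈ L.N, F n = m * F 0 := by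
    rw [← Mark.quo_eq, hFf 0 (by omega), hFf n le_rfl, h0n]
  have hm1 : m ≠ 1 := by
    rintro rfl
    rw [one_mul] at hFn
    have h1 := local_growth2 M.isGeo L.hyp hFp hLQ (by omega) (Nat.zero_le n) le_rfl
    rw [hFn, M.isGeo.self] at h1
    omega
  obtain ⟨v, hv⟩ := L.greend hm hm1 (F 0)
  rw [← hFn] at hv
  -- indices on the axis
  have hbet : ∃ a b : ℤ, b = a + ((3 * L.τ / 5 : ℕ) : ℤ) ∧
      ((L.pr v (F 0) ≤ a ∧ a ≤ L.pr v (F n)) ∨ (L.pr v (F n) ≤ a ∧ a ≤ L.pr v (F 0))) ∧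
      ((L.pr v (F 0) ≤ b ∧ b ≤ L.pr v (F n)) ∨ (L.pr v (F n) ≤ b ∧ b ≤ L.pr v (F 0))) := by
    have h1 : L.dv v (F 0) (F n) = (L.pr v (F 0) - L.pr v (F n)).natAbs := rfl
    rcases le_total (L.pr v (F 0)) (L.pr v (F n)) with h | h
    · exact ⟨L.pr v (F 0), _, rfl, by omega, by omega⟩
    · exact ⟨L.pr v (F n), _, rfl, by omega, by omega⟩
  obtain ⟨a, b, hab, ha, hb⟩ := hbet
  obtain ⟨i, hin, hi⟩ := L.near v hFp hstr rfl rfl (by omega) ha
  obtain ⟨j, hjn, hj⟩ := L.near v hFp hstr rfl rfl (by omega) hb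
  have hdij : M.d (F i) (F j) ≤ 3 * L.τ / 5 + 60 * L.κ := by
    have t1 := M.isGeo.tri (F i) (L.ax v a) (F j)
    have t2 := M.isGeo.tri (L.ax v a) (L.ax v b) (F j)
    have s1 := M.isGeo.symm (F i) (L.ax v a)
    have h1 := L.ax_abs_le v a b
    omega
  have hdvij : L.τ + 2 * L.θ < 2 * L.dv v (F i) (F j) := by
    have e1 := L.dv_le v (L.ax v a) (F i)
    have e2 := L.dv_le v (L.ax v b) (F j)
    have a1 := L.pr_ax v a
    have a2 := L.pr_ax v b
    unfold Lines.dv at *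
    omega
  -- finish
  have key : ∀ i j, i ≤ j → j ≤ n → M.d (F i) (F j) ≤ 3 * L.τ / 5 + 60 * L.κ →
      L.τ + 2 * L.θ < 2 * L.dv v (F i) (F j) → False := by
    intro i j hij hjn h1 h2
    have g1 := hgr i j hij hjn
    have g2 := local_growth2 M.isGeo L.hyp hFp hLQ (by omega) hij hjn
    have g3 : (j - i) / (L.τ / 2) ≤ 3 := by
      rw [Nat.div_le_iff_le_mul_add_pred (by omega)]
      omega
    have g4 : ((j - i) / (L.τ / 2) + 1) * (4 * 0 + 2 * L.δ) ≤ (3 + 1) * (4 * 0 + 2 * L.δ) :=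
      Nat.mul_le_mul_right _ (by omega)
    have g5 : j ≤ i + L.τ := by omega
    have g6 := hc' i j hij hjn g5
    have g7 := M.isGeo.path_le hFp i j hij hjn
    have g8 : L.MH.d ((F i : G) : L.H) ((F j : G) : L.H) ≤ M.d (F i) (F j) := M.quo_d_le L.N _ _
    have g9 : M.d (F i) (F j) = L.MH.d ((F i : G) : L.H) ((F j : G) : L.H) := by
      rw [← hFf i (by omega), ← hFf j hjn] at g6
      exact le_antisymm (by omega) g8
    have := L.min_dv g9 v
    omega
  rcases le_total i j with hij | hij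
  · exact key i j hij hjn hdij hdvij
  · refine key j i hij hin ?_ ?_
    · rw [M.isGeo.symm]; exact hdij
    · rw [L.dv_symm]; exact hdvij

/-- **M6_Dehn.** -/
theorem stmtM6Dehn : StmtM6Dehn := fun _ _ _ _ L => dehn L

end Pool.Agent.Helper50.ML
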